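import Mathlib

/-!
Lyndon length functions with integer values (group elements acting on a tree, base point a vertex)
and a Nielsen type argument for products of hyperbolic elements under Hurwitz moves.
-/

set_option autoImplicit false

namespace Pool.Agent.Q221.RStar

/-- An integer valued Lyndon length function. `c2` is twice the Gromov product. -/
structure LenFn (G : Type*) [Group G] where
  len : G → ℤ
  one : len 1 = 0
  inv : ∀ x, len x⁻¹ = len x
  hyp : ∀ x y z, min (len x + len y - len (x⁻¹ * y)) (len y + len z - len (y⁻¹ * z))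
    ≤ len x + len z - len (x⁻¹ * z)

namespace LenFn

variable {G : Type*} [Group G] (F : LenFn G)

/-- twice the Gromov product of `x` and `y` -/
def c2 (x y : G) : ℤ := F.len x + F.len y - F.len (x⁻¹ * y)

theorem c2_def (x y : G) : F.c2 x y = F.len x + F.len y - F.len (x⁻¹ * y) := rfl

theorem c2_comm (x y : G) : F.c2 x y = F.c2 y x := by
  unfold c2
  have : F.len (x⁻¹ * y) = F.len (y⁻¹ * x) := by
    rw [← F.inv (x⁻¹ * y)]; congr 1; group
  rw [this]; ring

theorem hyp' (x y z : G) : min (F.c2 x y) (F.c2 y z) ≤ F.c2 x z := F.hyp x y z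

theorem c2_one_right (x : G) : F.c2 x 1 = 0 := by
  unfold c2; rw [mul_one, F.inv, F.one]; ring

theorem c2_one_left (x : G) : F.c2 1 x = 0 := by
  rw [c2_comm, c2_one_right]

theorem c2_nonneg (x y : G) : 0 ≤ F.c2 x y := by
  have := F.hyp' x 1 y
  rwa [c2_one_right, c2_one_left, min_self] at this

theorem len_mul (x y : G) : F.len (x * y) = F.len x + F.len y - F.c2 x⁻¹ y := by
  unfold c2; rw [inv_inv, F.inv]; ring

theorem len_nonneg (x : G) : 0 ≤ F.len x := by
  have h := F.c2_nonneg x x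
  unfold c2 at h
  rw [inv_mul_cancel, F.one] at h
  linarith

theorem len_mul_le (x y : G) : F.len (x * y) ≤ F.len x + F.len y := by
  rw [len_mul]; have := F.c2_nonneg x⁻¹ y; linarith

theorem c2_le_left (x y : G) : F.c2 x y ≤ 2 * F.len x := by
  have h : F.len y ≤ F.len x + F.len (x⁻¹ * y) := by
    have := F.len_mul_le x (x⁻¹ * y); rwa [mul_inv_cancel_left] at this
  unfold c2; linarith

theorem c2_le_right (x y : G) : F.c2 x y ≤ 2 * F.len y := by
  rw [c2_comm]; exact F.c2_le_left y x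

theorem c2_mul_self (x y : G) : F.c2 (x * y) x = F.len (x * y) + F.len x - F.len y := by
  unfold c2
  have : (x * y)⁻¹ * x = y⁻¹ := by group
  rw [this, F.inv]

/-- `d2 t`: twice the distance of the base point to the axis (for hyperbolic `t`) -/
def d2 (t : G) : ℤ := F.c2 t⁻¹ t

theorem d2_nonneg (t : G) : 0 ≤ F.d2 t := F.c2_nonneg _ _

theorem d2_inv (t : G) : F.d2 t⁻¹ = F.d2 t := by
  unfold d2; rw [inv_inv, c2_comm]

theorem len_sq (t : G) : F.len (t * t) = 2 * F.len t - F.d2 t := by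
  rw [len_mul]; unfold d2; ring

/-- overlap of consecutive factors -/
def o2 (s t : G) : ℤ := F.c2 s⁻¹ t

theorem len_mul' (s t : G) : F.len (s * t) = F.len s + F.len t - F.o2 s t := F.len_mul s t

/-! ### powers -/

theorem len_pow_le (x : G) (n : ℕ) : F.len (x ^ n) ≤ n * F.len x := by
  induction n with
  | zero => simp [F.one]
  | succ n ih =>
    rw [pow_succ]
    have := F.len_mul_le (x ^ n) x
    push_cast; nlinarith

/-- elliptic elements have bounded powers -/
theorem len_pow_of_elliptic (t : G) (h : F.len t ≤ F.d2 t) (k : ℕ) :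
    F.len (t ^ (k + 1)) ≤ F.len t ∧ F.len (t ^ (k + 1)) ≤ F.c2 (t ^ (k + 1))⁻¹ t := by
  induction k with
  | zero => simpa [d2] using h
  | succ k ih =>
    obtain ⟨h1, h2⟩ := ih
    have e : F.len (t ^ (k + 1 + 1)) ≤ F.len t := by
      rw [pow_succ t (k + 1), len_mul]; linarith
    refine ⟨e, ?_⟩
    have h3 : F.c2 (t ^ (k + 1 + 1))⁻¹ t⁻¹ = F.len (t ^ (k + 1 + 1)) + F.len t - F.len (t ^ (k + 1)) := by
      have e1 : (t ^ (k + 1 + 1))⁻¹ = t⁻¹ * (t ^ (k + 1))⁻¹ := by
        rw [pow_succ t (k + 1), mul_inv_rev]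
      rw [e1, c2_mul_self, ← e1, F.inv, F.inv, F.inv]
    have h4 := F.hyp' (t ^ (k + 1 + 1))⁻¹ t⁻¹ t
    have h5 : F.len (t ^ (k + 1 + 1)) ≤ min (F.c2 (t ^ (k + 1 + 1))⁻¹ t⁻¹) (F.c2 t⁻¹ t) := by
      apply le_min
      · rw [h3]; linarith
      · unfold d2 at h; linarith
    exact h5.trans h4

/-- hyperbolic elements: exact length of powers -/
theorem len_pow_of_hyp (t : G) (h : F.d2 t < F.len t) (k : ℕ) :
    F.len (t ^ (k + 1)) = (k + 1) * (F.len t - F.d2 t) + F.d2 t ∧ F.c2 (t ^ (k + 1))⁻¹ t = F.d2 t := by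
  induction k with
  | zero => simp [d2]
  | succ k ih =>
    obtain ⟨h1, h2⟩ := ih
    have e : F.len (t ^ (k + 1 + 1)) = (k + 1 + 1) * (F.len t - F.d2 t) + F.d2 t := by
      rw [pow_succ t (k + 1), len_mul, h1, h2]; ring
    refine ⟨by rw [e]; push_cast; ring, ?_⟩
    have h3 : F.c2 (t ^ (k + 1 + 1))⁻¹ t⁻¹ = 2 * F.len t - F.d2 t := by
      have e1 : (t ^ (k + 1 + 1))⁻¹ = t⁻¹ * (t ^ (k + 1))⁻¹ := by
        rw [pow_succ t (k + 1), mul_inv_rev]
      rw [e1, c2_mul_self, ← e1, F.inv, F.inv, F.inv, e, h1]; ring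
    have h4 := F.hyp' (t ^ (k + 1 + 1))⁻¹ t⁻¹ t
    have h5 := F.hyp' t⁻¹ (t ^ (k + 1 + 1))⁻¹ t
    rw [h3] at h4
    rw [F.c2_comm t⁻¹, h3] at h5
    have h6 : F.c2 t⁻¹ t = F.d2 t := rfl
    rw [h6] at h4 h5
    rcases min_le_iff.1 h5 with h7 | h7
    · linarith
    · rcases min_le_iff.1 h4 with h8 | h8
      · linarith
      · linarith

end LenFn

end Pool.Agent.Q221.RStar
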