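import Pool.Agent.Q221.RStar.Tree

/-!
Monotone rotation systems on a group with a Lyndon length function, and the conclusion that
no product of conjugates of an element of rotation at least one is trivial.
-/

set_option autoImplicit false

namespace Pool.Agent.Q221.RStar

/-- A super-multiplicative system of monotone maps of `ℤ` commuting with the translation by `m`. -/
structure MSys {G : Type*} [Group G] (F : LenFn G) where
  m : ℤ
  mpos : 0 < m
  M : G → ℤ → ℤ
  mono : ∀ w, Monotone (M w)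
  per : ∀ w c, M w (c + m) = M w c + m
  one : ∀ c, M 1 c = c
  sup : ∀ w v c, M v (M w c) ≤ M (w * v) c
  exact' : ∀ w v, F.len (w * v) = F.len w + F.len v → ∀ c, M (w * v) c = M v (M w c)
  bd : ∀ w c, M w c ≤ c + F.len w

namespace MSys

variable {G : Type*} [Group G] {F : LenFn G} (A : MSys F)

theorem per_nat (w : G) (c : ℤ) (k : ℕ) : A.M w (c + k * A.m) = A.M w c + k * A.m := by
  induction k with
  | zero => simp
  | succ k ih =>
    have : c + ((k + 1 : ℕ) : ℤ) * A.m = (c + k * A.m) + A.m := by push_cast; ring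
    rw [this, A.per, ih]; push_cast; ring

theorem per_int (w : G) (c : ℤ) (k : ℤ) : A.M w (c + k * A.m) = A.M w c + k * A.m := by
  rcases Int.eq_nat_or_neg k with ⟨n, rfl | rfl⟩
  · exact A.per_nat w c n
  · have := A.per_nat w (c + -(n : ℤ) * A.m) n
    have e : c + -(n : ℤ) * A.m + n * A.m = c := by ring
    rw [e] at this
    linarith

/-- lower bound of `M w c` in terms of `M w 0` -/
theorem lower (w : G) (c : ℤ) : M A w 0 + c - A.m ≤ A.M w c := by
  have hm := A.mpos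
  have h1 : c / A.m * A.m ≤ c := Int.ediv_mul_le c hm.ne'
  have h2 : c < c / A.m * A.m + A.m := by
    have := Int.lt_ediv_add_one_mul_self c hm
    linarith
  have h3 := A.per_int w 0 (c / A.m)
  rw [zero_add] at h3
  have h4 := A.mono w h1
  rw [h3] at h4
  linarith

/-- rotation at least one -/
def Rot (t : G) : Prop := ∃ C : ℤ, ∀ k : ℕ, k * A.m - C ≤ A.M (t ^ k) 0

theorem rot_conj (t x : G) (h : A.Rot t) : A.Rot (x * t * x⁻¹) := by
  obtain ⟨C, hC⟩ := h
  refine ⟨C - A.M x 0 - A.M x⁻¹ 0 + 2 * A.m, fun k => ?_⟩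
  rw [conj_pow]
  have h1 := A.sup (x * t ^ k) x⁻¹ 0
  have h2 := A.sup x (t ^ k) 0
  have h3 := A.lower (t ^ k) (A.M x 0)
  have h4 := A.lower x⁻¹ (A.M (x * t ^ k) 0)
  have h5 := hC k
  linarith

theorem rot_hyp (t : G) (h : A.Rot t) : F.d2 t < F.len t := by
  by_contra hcon
  push Not at hcon
  obtain ⟨C, hC⟩ := h
  obtain ⟨k, hk⟩ : ∃ k : ℕ, C + F.len t < k := ⟨(C + F.len t + 1).toNat, by omega⟩
  have h1 := hC (k + 1)
  have h2 := A.bd (t ^ (k + 1)) 0
  have h3 := (F.len_pow_of_elliptic t hcon k).1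
  have hm := A.mpos
  push_cast at h1
  nlinarith

theorem iter (u : G) (τ : ℤ) (h : τ + A.m ≤ A.M u τ) (k : ℕ) : τ + k * A.m ≤ A.M (u ^ k) τ := by
  induction k with
  | zero => simp [A.one]
  | succ k ih =>
    rw [pow_succ]
    have h1 := A.sup (u ^ k) u τ
    have h2 := A.mono u ih
    have h3 := A.per_nat u τ k
    rw [h3] at h2
    push_cast
    linarith

theorem rot_of (t h : G) (τ : ℤ) (H : τ + A.m ≤ A.M (h⁻¹ * t * h) τ) : A.Rot t := by
  have h1 : A.Rot (h⁻¹ * t * h) := by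
    refine ⟨A.m - τ + |τ| + A.m, fun k => ?_⟩
    have h2 := A.iter _ τ H k
    -- compare the values at `0` and `τ`
    have hm := A.mpos
    have h3 : τ ≤ 0 + (|τ| : ℤ) * 1 := by rw [zero_add, mul_one]; exact le_abs_self τ
    have h4 : A.M ((h⁻¹ * t * h) ^ k) τ ≤ A.M ((h⁻¹ * t * h) ^ k) (0 + (τ / A.m + 1) * A.m) := by
      apply A.mono
      have := Int.lt_ediv_add_one_mul_self τ hm
      linarith
    rw [A.per_int] at h4
    have h5 : (τ / A.m + 1) * A.m ≤ τ + A.m := by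
      have := Int.ediv_mul_le τ hm.ne'
      linarith
    have h6 := abs_nonneg τ
    have h7 := le_abs_self τ
    linarith
  have h2 := A.rot_conj _ h h1
  have e : h * (h⁻¹ * t * h) * h⁻¹ = t := by group
  rwa [e] at h2

theorem exact_pow (u : G) (hu : F.d2 u = 0) (k : ℕ) (c : ℤ) :
    A.M (u ^ k) c = (A.M u)^[k] c := by
  induction k with
  | zero => simp [A.one]
  | succ k ih =>
    rw [pow_succ, A.exact' _ _ (by rw [← pow_succ]; exact F.len_pow_of_d2_zero u hu k), ih,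
      Function.iterate_succ_apply']

theorem exists_of_rot (t h : G) (H : A.Rot t) (hu : F.d2 (h⁻¹ * t * h) = 0) :
    ∃ τ, τ + A.m ≤ A.M (h⁻¹ * t * h) τ := by
  have h1 : A.Rot (h⁻¹ * t * h) := by
    have := A.rot_conj t h⁻¹ H
    rwa [inv_inv] at this
  set u := h⁻¹ * t * h with hu'
  by_contra hcon
  push Not at hcon
  obtain ⟨C, hC⟩ := h1
  have up : ∀ k : ℕ, A.M (u ^ k) 0 ≤ k * (A.m - 1) := by
    intro k
    rw [A.exact_pow u hu]
    induction k with
    | zero => simp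
    | succ k ih =>
      rw [Function.iterate_succ_apply']
      have := hcon ((A.M u)^[k] 0)
      push_cast
      linarith
  obtain ⟨k, hk⟩ : ∃ k : ℕ, C < k := ⟨(C + 1).toNat, by omega⟩
  have a := hC k
  have b := up k
  linarith

theorem combine (w v : G) (τ σ : ℤ) (hw : τ + A.m ≤ A.M w τ) (hv : σ + A.m ≤ A.M v σ) :
    ∃ γ, γ + A.m ≤ A.M (w * v) γ := by
  have hm := A.mpos
  -- shift `τ` to lie in `(σ - m, σ]`
  set k := (σ - τ) / A.m with hk
  have h1 : k * A.m ≤ σ - τ := Int.ediv_mul_le _ hm.ne'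
  have h2 : σ - τ < (k + 1) * A.m := Int.lt_ediv_add_one_mul_self _ hm
  refine ⟨τ + k * A.m, ?_⟩
  have h3 : σ ≤ A.M w (τ + k * A.m) := by
    rw [A.per_int]; linarith
  have h4 := A.mono v h3
  have h5 := A.sup w v (τ + k * A.m)
  linarith

/-- The main consequence. -/
theorem main (pre : ∀ (x y : G) (j : ℕ), 2 * (j : ℤ) ≤ F.c2 x y →
      ∃ h, F.len h = j ∧ F.len (h⁻¹ * x) = F.len x - j ∧ F.len (h⁻¹ * y) = F.len y - j)
    (g : G) (hg : A.m ≤ A.M g 0) (L : List G) (hL : L ≠ [])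
    (hLg : ∀ s ∈ L, ∃ x, s = x * g * x⁻¹) : L.prod ≠ 1 := by
  have hrg : A.Rot g := A.rot_of g 1 0 (by simpa using hg)
  refine F.prod_ne_one {t | A.Rot t} (fun s hs x => A.rot_conj s x hs) (fun s hs => A.rot_hyp s hs)
    ?_ L hL ?_
  · intro s hs t ht hlt
    have hs' := A.rot_hyp s hs
    have ht' := A.rot_hyp t ht
    rw [lt_min_iff, lt_min_iff] at hlt
    obtain ⟨l1, l2, l3⟩ := hlt
    have p1 := le_max_left (F.d2 s) (F.d2 t)
    have p2 := le_max_right (F.d2 s) (F.d2 t)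
    set D := max (F.d2 s) (F.d2 t) with hD
    have q1 := F.d2_nonneg s
    obtain ⟨j, hj1, hj2⟩ : ∃ j : ℕ, D ≤ 2 * (j : ℤ) ∧ 2 * (j : ℤ) ≤ D + 1 :=
      ⟨((D + 1) / 2).toNat, by omega, by omega⟩
    obtain ⟨h, hh, h1, h2⟩ := pre s⁻¹ t j (by unfold LenFn.o2 at l1; linarith)
    have cs := F.conj_prefix s⁻¹ h (by rw [F.d2_inv, F.inv]; exact hs')
      (by rw [h1, hh]) (by rw [F.d2_inv, hh]; linarith) (by rw [F.d2_inv, F.inv, hh]; linarith)
    have ct := F.conj_prefix t h ht' (by rw [h2, hh]) (by rw [hh]; linarith) (by rw [hh]; linarith)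
    have es : h⁻¹ * s * h = (h⁻¹ * s⁻¹ * h)⁻¹ := by group
    have ds : F.d2 (h⁻¹ * s * h) = 0 := by rw [es, F.d2_inv]; exact cs.2
    obtain ⟨τ, hτ⟩ := A.exists_of_rot s h hs ds
    obtain ⟨σ, hσ⟩ := A.exists_of_rot t h ht ct.2
    obtain ⟨γ, hγ⟩ := A.combine _ _ τ σ hτ hσ
    have e : h⁻¹ * s * h * (h⁻¹ * t * h) = h⁻¹ * (s * t) * h := by group
    rw [e] at hγ
    exact A.rot_of (s * t) h γ hγ
  · intro s hs
    obtain ⟨x, rfl⟩ := hLg s hs
    exact A.rot_conj g x hrg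

end MSys

end Pool.Agent.Q221.RStar
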