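import Pool.Agent.Q221.RStar.Rot

/-!
Free products of `R*` groups are `R*`.
-/

set_option autoImplicit false
set_option linter.unusedSectionVars false

namespace Pool.Agent.Q221.RStar.FP

open Monoid Monoid.CoprodI

variable {ι : Type*} {G : ι → Type*} [∀ i, Group (G i)]

/-- position modulo the period -/
def ix (N : ℕ) (z : ℤ) : ℕ := ((z - 1) % (N : ℤ)).toNat

theorem ix_lt {N : ℕ} (hN : 0 < N) (z : ℤ) : ix N z < N := by
  have h1 := Int.emod_nonneg (z - 1) (b := (N : ℤ)) (by omega)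
  have h2 := Int.emod_lt_of_pos (z - 1) (b := (N : ℤ)) (by omega)
  unfold ix; omega

theorem ix_per (N : ℕ) (z : ℤ) : ix N (z + N) = ix N z := by
  unfold ix
  rw [show z + (N : ℤ) - 1 = (z - 1) + N by ring, Int.add_emod_right]

theorem ix_succ {N : ℕ} (hN : 0 < N) (z : ℤ) :
    (ix N z + 1 < N ∧ ix N (z + 1) = ix N z + 1) ∨ (ix N z = N - 1 ∧ ix N (z + 1) = 0) := by
  have h1 := Int.emod_nonneg (z - 1) (b := (N : ℤ)) (by omega)
  have h2 := Int.emod_lt_of_pos (z - 1) (b := (N : ℤ)) (by omega)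
  have h3 := Int.emod_add_mul_ediv (z - 1) (N : ℤ)
  set k := (z - 1) % (N : ℤ) with hk
  have e : z + 1 - 1 = (k + 1) + N * ((z - 1) / N) := by linarith
  have e2 : (z + 1 - 1) % (N : ℤ) = (k + 1) % N := by
    rw [e, Int.add_mul_emod_self_left]
  by_cases h : k + 1 < N
  · left
    have e3 : (k + 1) % (N : ℤ) = k + 1 := Int.emod_eq_of_lt (by omega) h
    unfold ix
    rw [e2, e3, ← hk]
    omega
  · right
    have e3 : (k + 1) % (N : ℤ) = 0 := by
      have : k + 1 = N := by omega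
      rw [this, Int.emod_self]
    unfold ix
    rw [e2, e3, ← hk]
    omega

theorem ix_nat {N : ℕ} (k : ℕ) (hk : k < N) : ix N ((k : ℤ) + 1) = k := by
  unfold ix
  rw [add_sub_cancel_right, Int.emod_eq_of_lt (by omega) (by omega)]
  simp

/-- the periodic sequence of a cyclically reduced word -/
noncomputable def pseq (l : List (Σ i, G i)) (hl : 0 < l.length)
    (hc : ∀ k : ℕ, ∀ h : k + 1 < l.length, (l[k]).1 ≠ (l[k+1]).1)
    (hw : (l[l.length - 1]).1 ≠ (l[0]).1)
    (hinf : ∀ a ∈ l, ∀ n : ℕ, a.2 ^ (n + 1) ≠ 1) : PSeq G where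
  L z := l[ix l.length z]'(ix_lt hl z)
  m := l.length
  mpos := by omega
  per z := by simp only [ix_per]
  alt z := by
    rcases ix_succ hl z with ⟨h1, h2⟩ | ⟨h1, h2⟩
    · simp only [h2]; exact hc _ h1
    · simp only [h1, h2]; exact hw
  inf z n := hinf _ (List.getElem_mem _) n

theorem fold_pseq (l : List (Σ i, G i)) (hl : 0 < l.length)
    (hc : ∀ k : ℕ, ∀ h : k + 1 < l.length, (l[k]).1 ≠ (l[k+1]).1)
    (hw : (l[l.length - 1]).1 ≠ (l[0]).1)
    (hinf : ∀ a ∈ l, ∀ n : ℕ, a.2 ^ (n + 1) ≠ 1) (k : ℕ) (hk : k ≤ l.length) :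
    (pseq l hl hc hw hinf).fold (l.take k) 0 = k := by
  induction k with
  | zero => simp
  | succ k ih =>
    have hk' : k < l.length := hk
    rw [List.take_succ_eq_append_getElem hk', PSeq.fold_append, ih (by omega)]
    have e : (pseq l hl hc hw hinf).L ((k : ℤ) + 1) = l[k] := by
      show l[ix l.length ((k : ℤ) + 1)]'_ = l[k]
      simp only [ix_nat k hk']
    have := (pseq l hl hc hw hinf).Ml_L (k : ℤ)
    rw [e] at this
    rw [PSeq.fold_cons, PSeq.fold_nil, this]
    push_cast; rfl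

/-- **Hyperbolic elements**: if all factors are torsion-free, no product of conjugates of an element
that is not conjugate into a factor is trivial. -/
theorem hyper (tf : ∀ i, ∀ a : G i, a ≠ 1 → ∀ n : ℕ, a ^ (n + 1) ≠ 1) (g : CoprodI G)
    (hg : (F : LenFn (CoprodI G)).d2 g < F.len g) (L : List (CoprodI G)) (hL : L ≠ [])
    (hLg : ∀ s ∈ L, ∃ x, s = x * g * x⁻¹) : L.prod ≠ 1 := by
  have q1 := (F : LenFn (CoprodI G)).d2_nonneg g
  obtain ⟨j, hj1, hj2⟩ : ∃ j : ℕ, F.d2 g ≤ 2 * (j : ℤ) ∧ 2 * (j : ℤ) ≤ F.d2 g + 1 :=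
    ⟨((F.d2 g + 1) / 2).toNat, by omega, by omega⟩
  obtain ⟨h, hh, h1, -⟩ := pre g g j (by
    rw [LenFn.c2_def, inv_mul_cancel, (F : LenFn (CoprodI G)).one]; linarith)
  have cg := (F : LenFn (CoprodI G)).conj_prefix g h hg (by rw [h1, hh]) (by rw [hh]; linarith)
    (by rw [hh]; linarith)
  obtain ⟨c1, c2⟩ := cg
  set g' := h⁻¹ * g * h with hg'
  have hpos : (0 : ℤ) < F.len g' := by rw [c1]; linarith
  have hl : 0 < (wl g').length := by rw [len_def] at hpos; exact_mod_cast hpos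
  have hr := red_wl g'
  have hc : ∀ k : ℕ, ∀ h : k + 1 < (wl g').length, ((wl g')[k]).1 ≠ ((wl g')[k+1]).1 := by
    intro k hk
    exact List.isChain_iff_getElem.1 hr.2 k hk
  have hw : ((wl g')[(wl g').length - 1]).1 ≠ ((wl g')[0]).1 := by
    intro he
    have e : wl g'⁻¹ = iw (wl g') := by
      conv_lhs => rw [← P_wl g', ← P_iw, wl_P _ (red_iw _ (red_wl g'))]
    have h2 : (F : LenFn (CoprodI G)).c2 g'⁻¹ g' = 0 := c2
    rw [c2_eq, e] at h2
    have h3 : (iw (wl g')).head? = some (il ((wl g')[(wl g').length - 1])) := by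
      rw [iw, List.head?_reverse, List.getLast?_map, List.getLast?_eq_getElem?,
        List.getElem?_eq_getElem (by omega)]
      rfl
    obtain ⟨t, ht⟩ := List.head?_eq_some_iff.1 h3
    have h4 : (wl g').head? = some ((wl g')[0]) := by
      rw [List.head?_eq_getElem?, List.getElem?_eq_getElem hl]
    obtain ⟨t', ht'⟩ := List.head?_eq_some_iff.1 h4
    rw [ht] at h2
    generalize (wl g')[0] = b at ht' he
    generalize (wl g')[(wl g').length - 1] = a at h2 he
    rw [ht'] at h2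
    unfold cp at h2
    have hn := cp_nonneg t t'
    have hab' : (il a).1 = b.1 := he
    rw [if_pos hab'] at h2
    split_ifs at h2 <;> linarith
  have hinf : ∀ a ∈ wl g', ∀ n : ℕ, a.2 ^ (n + 1) ≠ 1 := fun a ha => tf _ _ (hr.1 a ha)
  set S := pseq (wl g') hl hc hw hinf with hS
  refine S.sys.main pre g' ?_ L hL ?_
  · show ((wl g').length : ℤ) ≤ S.fold (wl g') 0
    have := fold_pseq (wl g') hl hc hw hinf (wl g').length le_rfl
    rw [List.take_length] at this
    rw [hS, this]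
  · intro s hs
    obtain ⟨x, rfl⟩ := hLg s hs
    exact ⟨x * h, by rw [hg']; group⟩

/-- **Elliptic elements** are conjugate into a factor. -/
theorem elliptic (g : CoprodI G) (hg1 : g ≠ 1)
    (hg : (F : LenFn (CoprodI G)).len g ≤ F.d2 g) :
    ∃ (i : ι) (a : G i) (h : CoprodI G), a ≠ 1 ∧ g = h * of a * h⁻¹ := by
  obtain ⟨j, hj1, hj2⟩ : ∃ j : ℕ, (F : LenFn (CoprodI G)).len g ≤ 2 * (j : ℤ) + 1 ∧
      2 * (j : ℤ) ≤ (F : LenFn (CoprodI G)).len g := by
    have := (F : LenFn (CoprodI G)).len_nonneg g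
    exact ⟨((F : LenFn (CoprodI G)).len g / 2).toNat, by omega, by omega⟩
  obtain ⟨h, hh, -, h2⟩ := pre g⁻¹ g j (by
    show 2 * (j : ℤ) ≤ (F : LenFn (CoprodI G)).d2 g; linarith)
  set a := h⁻¹ * g with ha
  have eta : g = h * a := by rw [ha]; group
  have c1 : (F : LenFn (CoprodI G)).c2 g⁻¹ a⁻¹ = 2 * F.len a := by
    have e1 : g⁻¹ = a⁻¹ * h⁻¹ := by rw [eta, mul_inv_rev]
    rw [e1, LenFn.c2_mul_self, ← e1, LenFn.inv, LenFn.inv, LenFn.inv, h2, hh]; ring
  have c3 : (F : LenFn (CoprodI G)).c2 g h = 2 * F.len h := by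
    have : (F : LenFn (CoprodI G)).c2 (h * a) h = F.len (h * a) + F.len h - F.len a :=
      LenFn.c2_mul_self _ h a
    rw [← eta, h2] at this; rw [this, hh]; ring
  have c4 : 2 * (j : ℤ) ≤ (F : LenFn (CoprodI G)).c2 a⁻¹ h := by
    have a1 := (F : LenFn (CoprodI G)).hyp' a⁻¹ g⁻¹ g
    have a2 := (F : LenFn (CoprodI G)).hyp' a⁻¹ g h
    rw [LenFn.c2_comm _ a⁻¹ g⁻¹, c1] at a1
    rw [c3, hh] at a2
    have hd : (F : LenFn (CoprodI G)).c2 g⁻¹ g = F.d2 g := rfl
    rw [hd] at a1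
    have : 2 * (j : ℤ) ≤ (F : LenFn (CoprodI G)).c2 a⁻¹ g :=
      le_trans (le_min (by rw [h2]; linarith) (by linarith)) a1
    exact le_trans (le_min this le_rfl) a2
  have l1 : (F : LenFn (CoprodI G)).len (a * h) ≤ 1 := by
    rw [LenFn.len_mul, h2, hh]; linarith
  have hne : a * h ≠ 1 := by
    intro he
    apply hg1
    rw [eta]
    have : a = h⁻¹ := eq_inv_of_mul_eq_one_left he
    rw [this, mul_inv_cancel]
  have e1 : g = h * (a * h) * h⁻¹ := by rw [eta]; group
  rw [len_def] at l1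
  have hw := P_wl (a * h)
  rcases hl : wl (a * h) with _ | ⟨b, t⟩
  · rw [hl, P_nil] at hw; exact (hne hw.symm).elim
  · have ht : t = [] := by
      rw [hl] at l1
      simp only [List.length_cons] at l1
      push_cast at l1
      have : t.length = 0 := by omega
      exact List.length_eq_zero_iff.1 this
    rw [hl, ht, P_cons, P_nil, mul_one] at hw
    refine ⟨b.1, b.2, h, ?_, ?_⟩
    · have := (red_wl (a * h)).1 b (by rw [hl]; simp)
      exact this
    · rw [hw]; exact e1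

/-- Free products of `R*` groups are `R*`. -/
theorem rstar (hR : ∀ i, ∀ g : G i, g ≠ 1 → ∀ n : ℕ, ∀ x : Fin (n + 1) → G i,
      (List.ofFn (fun j => x j * g * (x j)⁻¹)).prod ≠ 1)
    (g : CoprodI G) (hg : g ≠ 1) (n : ℕ) (x : Fin (n + 1) → CoprodI G) :
    (List.ofFn (fun j => x j * g * (x j)⁻¹)).prod ≠ 1 := by
  classical
  by_cases hh : (F : LenFn (CoprodI G)).d2 g < F.len g
  · refine hyper ?_ g hh _ (by simp) ?_
    · intro i a ha k hk
      apply hR i a ha k (fun _ => 1)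
      rw [pow_succ'] at hk
      simpa using hk
    · intro s hs
      rw [List.mem_ofFn] at hs
      obtain ⟨j, rfl⟩ := hs
      exact ⟨x j, rfl⟩
  · push Not at hh
    obtain ⟨i, a, h, ha, rfl⟩ := elliptic g hg hh
    intro hprod
    let φ : CoprodI G →* G i := lift (Pi.mulSingle i (MonoidHom.id (G i)))
    have hφ : φ (of a) = a := by
      show lift (Pi.mulSingle i (MonoidHom.id (G i))) (of a) = a
      rw [lift_of]; simp
    apply hR i a ha n (fun j => φ (x j * h))
    have := congrArg φ hprod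
    rw [map_one, map_list_prod, List.map_ofFn] at this
    rw [← this]
    congr 2
    funext j
    simp only [Function.comp_apply, map_mul, map_inv, hφ, mul_inv_rev]
    group

end Pool.Agent.Q221.RStar.FP
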