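import Pool.Agent.Q221.RStar.Word

/-!
The rotation system of a periodic sequence of letters of a free product.
-/

set_option autoImplicit false
set_option linter.unusedSectionVars false

namespace Pool.Agent.Q221.RStar.FP

open Monoid Monoid.CoprodI

variable {ι : Type*} {G : ι → Type*} [∀ i, Group (G i)]

/-- A periodic sequence of letters of infinite order, neighbours in different factors. -/
structure PSeq (G : ι → Type*) [∀ i, Group (G i)] where
  L : ℤ → Σ i, G i
  m : ℤ
  mpos : 0 < m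
  per : ∀ z, L (z + m) = L z
  alt : ∀ z, (L z).1 ≠ (L (z + 1)).1
  inf : ∀ z, ∀ n : ℕ, (L z).2 ^ (n + 1) ≠ 1

namespace PSeq

variable (S : PSeq G)

theorem per_nat (z : ℤ) (k : ℕ) : S.L (z + k * S.m) = S.L z := by
  induction k with
  | zero => simp
  | succ k ih =>
    have : z + ((k + 1 : ℕ) : ℤ) * S.m = (z + k * S.m) + S.m := by push_cast; ring
    rw [this, S.per, ih]

theorem per_neg (z : ℤ) (k : ℕ) : S.L (z - k * S.m) = S.L z := by
  have := S.per_nat (z - k * S.m) k
  rw [sub_add_cancel] at this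
  exact this.symm

/-- the factor `j` occurs -/
def Occ (j : ι) : Prop := ∃ x, (S.L x).1 = j

theorem exists_top (j : ι) (h : S.Occ j) (c : ℤ) :
    ∃ x, ((S.L x).1 = j ∧ x ≤ c) ∧ ∀ z, ((S.L z).1 = j ∧ z ≤ c) → z ≤ x := by
  obtain ⟨x, hx⟩ := h
  obtain ⟨k, hk⟩ : ∃ k : ℕ, x - c ≤ k := ⟨(x - c).toNat, by omega⟩
  have := @Int.exists_greatest_of_bdd (fun z => (S.L z).1 = j ∧ z ≤ c) ⟨c, fun z hz => hz.2⟩
    ⟨x - k * S.m, by rw [S.per_neg]; exact hx, by have := S.mpos; nlinarith⟩
  exact this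

open Classical in
/-- greatest position `≤ c` of the factor `j` -/
noncomputable def top (j : ι) (c : ℤ) : ℤ :=
  if h : S.Occ j then (S.exists_top j h c).choose else 0

theorem top_spec (j : ι) (h : S.Occ j) (c : ℤ) : (S.L (S.top j c)).1 = j ∧ S.top j c ≤ c := by
  unfold top; rw [dif_pos h]; exact (S.exists_top j h c).choose_spec.1

theorem le_top (j : ι) (c z : ℤ) (hz : (S.L z).1 = j) (hzc : z ≤ c) : z ≤ S.top j c := by
  have h : S.Occ j := ⟨z, hz⟩
  unfold top; rw [dif_pos h]; exact (S.exists_top j h c).choose_spec.2 z ⟨hz, hzc⟩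

theorem top_mono (j : ι) (h : S.Occ j) {c d : ℤ} (hcd : c ≤ d) : S.top j c ≤ S.top j d :=
  S.le_top j d _ (S.top_spec j h c).1 ((S.top_spec j h c).2.trans hcd)

theorem top_per (j : ι) (h : S.Occ j) (c : ℤ) : S.top j (c + S.m) = S.top j c + S.m := by
  apply le_antisymm
  · have h1 := S.top_spec j h (c + S.m)
    have h2 : S.top j (c + S.m) - S.m ≤ S.top j c := by
      apply S.le_top
      · rw [← S.per, sub_add_cancel]; exact h1.1
      · linarith [h1.2]
    linarith
  · have h1 := S.top_spec j h c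
    apply S.le_top
    · rw [S.per]; exact h1.1
    · linarith [h1.2]

theorem top_self (j : ι) (z : ℤ) (hz : (S.L z).1 = j) : S.top j z = z :=
  le_antisymm (S.top_spec j ⟨z, hz⟩ z).2 (S.le_top j z z hz le_rfl)

theorem top_succ (j : ι) (z : ℤ) (hz : (S.L z).1 = j) : S.top j (z + 1) = z := by
  have h := S.top_spec j ⟨z, hz⟩ (z + 1)
  apply le_antisymm
  · by_contra hcon
    push Not at hcon
    have e : S.top j (z + 1) = z + 1 := by omega
    rw [e] at h
    exact S.alt z (hz.trans h.1.symm)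
  · exact S.le_top j _ z hz (by linarith)

/-- `a` is a positive power of the letter at `y` -/
def Mat (a : Σ i, G i) (y : ℤ) : Prop :=
  ∃ n : ℕ, (of a.2 : CoprodI G) = (of (S.L y).2) ^ (n + 1)

open Classical in
/-- the monotone map of a letter -/
noncomputable def Ml (a : Σ i, G i) (c : ℤ) : ℤ :=
  if S.Occ a.1 then
    (if S.Mat a (S.top a.1 (c + 1)) then S.top a.1 (c + 1) else S.top a.1 (S.top a.1 (c + 1) - 1))
  else c

theorem Ml_not (a : Σ i, G i) (c : ℤ) (h : ¬ S.Occ a.1) : S.Ml a c = c := by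
  unfold Ml; rw [if_neg h]

theorem Ml_mat (a : Σ i, G i) (c : ℤ) (h : S.Occ a.1) (hm : S.Mat a (S.top a.1 (c + 1))) :
    S.Ml a c = S.top a.1 (c + 1) := by
  unfold Ml; rw [if_pos h, if_pos hm]

theorem Ml_unmat (a : Σ i, G i) (c : ℤ) (h : S.Occ a.1) (hm : ¬ S.Mat a (S.top a.1 (c + 1))) :
    S.Ml a c = S.top a.1 (S.top a.1 (c + 1) - 1) := by
  unfold Ml; rw [if_pos h, if_neg hm]

theorem Ml_le_top (a : Σ i, G i) (c : ℤ) (h : S.Occ a.1) : S.Ml a c ≤ S.top a.1 (c + 1) := by
  by_cases hm : S.Mat a (S.top a.1 (c + 1))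
  · rw [S.Ml_mat a c h hm]
  · rw [S.Ml_unmat a c h hm]
    have := (S.top_spec a.1 h (S.top a.1 (c + 1) - 1)).2
    linarith

theorem top_le_Ml (a : Σ i, G i) (c : ℤ) (h : S.Occ a.1) :
    S.top a.1 (S.top a.1 (c + 1) - 1) ≤ S.Ml a c := by
  by_cases hm : S.Mat a (S.top a.1 (c + 1))
  · rw [S.Ml_mat a c h hm]
    have := (S.top_spec a.1 h (S.top a.1 (c + 1) - 1)).2
    linarith
  · rw [S.Ml_unmat a c h hm]

theorem Ml_le (a : Σ i, G i) (c : ℤ) : S.Ml a c ≤ c + 1 := by
  by_cases h : S.Occ a.1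
  · exact (S.Ml_le_top a c h).trans (S.top_spec a.1 h _).2
  · rw [S.Ml_not a c h]; linarith

theorem Ml_mono (a : Σ i, G i) : Monotone (S.Ml a) := by
  intro c d hcd
  by_cases h : S.Occ a.1
  · have h1 : S.top a.1 (c + 1) ≤ S.top a.1 (d + 1) := S.top_mono _ h (by linarith)
    rcases h1.lt_or_eq with h2 | h2
    · refine (S.Ml_le_top a c h).trans (le_trans ?_ (S.top_le_Ml a d h))
      exact S.le_top _ _ _ (S.top_spec a.1 h (c + 1)).1 (by omega)
    · by_cases hm : S.Mat a (S.top a.1 (c + 1))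
      · rw [S.Ml_mat a c h hm, S.Ml_mat a d h (h2 ▸ hm), h2]
      · rw [S.Ml_unmat a c h hm, S.Ml_unmat a d h (h2 ▸ hm), h2]
  · rw [S.Ml_not a c h, S.Ml_not a d h]; exact hcd

theorem Ml_idx (a : Σ i, G i) (c : ℤ) (h : S.Occ a.1) : (S.L (S.Ml a c)).1 = a.1 := by
  by_cases hm : S.Mat a (S.top a.1 (c + 1))
  · rw [S.Ml_mat a c h hm]; exact (S.top_spec a.1 h _).1
  · rw [S.Ml_unmat a c h hm]; exact (S.top_spec a.1 h _).1

theorem Ml_per (a : Σ i, G i) (c : ℤ) : S.Ml a (c + S.m) = S.Ml a c + S.m := by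
  by_cases h : S.Occ a.1
  · have e : S.top a.1 (c + S.m + 1) = S.top a.1 (c + 1) + S.m := by
      rw [← S.top_per a.1 h]; congr 1; ring
    have e2 : S.Mat a (S.top a.1 (c + S.m + 1)) ↔ S.Mat a (S.top a.1 (c + 1)) := by
      unfold Mat; rw [e, S.per]
    by_cases hm : S.Mat a (S.top a.1 (c + 1))
    · rw [S.Ml_mat a c h hm, S.Ml_mat a _ h (e2.2 hm), e]
    · rw [S.Ml_unmat a c h hm, S.Ml_unmat a _ h (fun hh => hm (e2.1 hh)), e]
      have e3 : S.top a.1 (c + 1) + S.m - 1 = (S.top a.1 (c + 1) - 1) + S.m := by ring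
      rw [e3, S.top_per a.1 h]
  · rw [S.Ml_not a c h, S.Ml_not a _ h]

theorem Ml_L (c : ℤ) : S.Ml (S.L (c + 1)) c = c + 1 := by
  have h : S.Occ (S.L (c + 1)).1 := ⟨c + 1, rfl⟩
  have e : S.top (S.L (c + 1)).1 (c + 1) = c + 1 := S.top_self _ _ rfl
  rw [S.Ml_mat _ _ h ?_, e]
  rw [e]; exact ⟨0, by simp⟩

theorem mat_mul {i : ι} {x y : G i} {z : ℤ} (h1 : S.Mat ⟨i, x⟩ z) (h2 : S.Mat ⟨i, y⟩ z) :
    S.Mat ⟨i, x * y⟩ z := by
  obtain ⟨n, hn⟩ := h1
  obtain ⟨k, hk⟩ := h2
  refine ⟨n + 1 + k, ?_⟩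
  simp only at hn hk ⊢
  rw [map_mul, hn, hk, ← pow_add]; congr 1

theorem not_mat_one (i : ι) (z : ℤ) : ¬ S.Mat ⟨i, (1 : G i)⟩ z := by
  classical
  rintro ⟨n, hn⟩
  simp only at hn
  rw [map_one, ← map_pow] at hn
  have : (S.L z).2 ^ (n + 1) = 1 := by
    apply of_injective (M := G) (S.L z).1
    rw [map_one]; exact hn.symm
  exact S.inf z n this

theorem Ml_mul_le {i : ι} (x y : G i) (c : ℤ) :
    S.Ml ⟨i, y⟩ (S.Ml ⟨i, x⟩ c) ≤ S.Ml ⟨i, x * y⟩ c := by
  by_cases h : S.Occ i
  · have hi := S.Ml_idx ⟨i, x⟩ c h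
    have e : S.top i (S.Ml ⟨i, x⟩ c + 1) = S.Ml ⟨i, x⟩ c := S.top_succ i _ hi
    have h3 := S.top_le_Ml ⟨i, x * y⟩ c h
    simp only at h3
    by_cases hx : S.Mat ⟨i, x⟩ (S.top i (c + 1))
    · have e1 : S.Ml ⟨i, x⟩ c = S.top i (c + 1) := S.Ml_mat ⟨i, x⟩ c h hx
      rw [e1] at e ⊢
      by_cases hy : S.Mat ⟨i, y⟩ (S.top i (c + 1))
      · have h4 : S.Ml ⟨i, x * y⟩ c = S.top i (c + 1) :=
          S.Ml_mat ⟨i, x * y⟩ c h (S.mat_mul hx hy)
        rw [h4]
        have := S.Ml_le_top ⟨i, y⟩ (S.top i (c + 1)) h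
        simp only [e] at this
        exact this
      · have h4 : S.Ml ⟨i, y⟩ (S.top i (c + 1)) = S.top i (S.top i (c + 1) - 1) := by
          have := S.Ml_unmat ⟨i, y⟩ (S.top i (c + 1)) h (by simp only [e]; exact hy)
          simp only [e] at this
          exact this
        rw [h4]; exact h3
    · have e1 : S.Ml ⟨i, x⟩ c = S.top i (S.top i (c + 1) - 1) := S.Ml_unmat ⟨i, x⟩ c h hx
      have := S.Ml_le_top ⟨i, y⟩ (S.Ml ⟨i, x⟩ c) h
      simp only [e] at this
      rw [e1] at this ⊢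
      exact this.trans h3
  · rw [S.Ml_not _ _ h, S.Ml_not _ _ h, S.Ml_not _ _ h]

theorem Ml_mul_one {i : ι} (x y : G i) (hxy : x * y = 1) (c : ℤ) :
    S.Ml ⟨i, y⟩ (S.Ml ⟨i, x⟩ c) ≤ c := by
  by_cases h : S.Occ i
  · have h1 := S.Ml_mul_le x y c
    rw [hxy] at h1
    have h2 : S.Ml ⟨i, (1 : G i)⟩ c = S.top i (S.top i (c + 1) - 1) :=
      S.Ml_unmat ⟨i, 1⟩ c h (S.not_mat_one i _)
    have h3 := (S.top_spec i h (S.top i (c + 1) - 1)).2
    have h4 := (S.top_spec i h (c + 1)).2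
    linarith
  · rw [S.Ml_not _ _ h, S.Ml_not _ _ h]

/-- fold of a list -/
noncomputable def fold (l : List (Σ i, G i)) (c : ℤ) : ℤ := l.foldl (fun c a => S.Ml a c) c

@[simp] theorem fold_nil (c : ℤ) : S.fold [] c = c := rfl
@[simp] theorem fold_cons (a : Σ i, G i) (l : List (Σ i, G i)) (c : ℤ) :
    S.fold (a :: l) c = S.fold l (S.Ml a c) := rfl
theorem fold_append (l l' : List (Σ i, G i)) (c : ℤ) :
    S.fold (l ++ l') c = S.fold l' (S.fold l c) := by
  unfold fold; rw [List.foldl_append]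

theorem fold_mono (l : List (Σ i, G i)) : Monotone (S.fold l) := by
  induction l with
  | nil => exact fun c d h => h
  | cons a l ih => exact fun c d h => ih (S.Ml_mono a h)

theorem fold_per (l : List (Σ i, G i)) (c : ℤ) : S.fold l (c + S.m) = S.fold l c + S.m := by
  induction l generalizing c with
  | nil => rfl
  | cons a l ih => rw [fold_cons, S.Ml_per, ih]; rfl

theorem fold_le (l : List (Σ i, G i)) (c : ℤ) : S.fold l c ≤ c + l.length := by
  induction l generalizing c with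
  | nil => simp
  | cons a l ih =>
    rw [fold_cons]
    have := ih (S.Ml a c)
    have := S.Ml_le a c
    simp only [List.length_cons]; push_cast; linarith

theorem letter_le (l : List (Σ i, G i)) (hl : Red l) (b : Σ i, G i) (hb : b.2 ≠ 1) (c : ℤ) :
    S.Ml b (S.fold l c) ≤ S.fold (wl (P l * of b.2)) c := by
  rcases List.eq_nil_or_concat l with rfl | ⟨l', a, rfl⟩
  · have : wl (P [] * of b.2) = [b] := by
      have h := wl_P [b] ⟨by simpa using hb, List.isChain_singleton _⟩
      rwa [P_cons, P_nil, mul_one, ← one_mul (of b.2), ← P_nil] at h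
    rw [this]; rfl
  · rw [List.concat_eq_append] at hl ⊢
    by_cases hab : a.1 = b.1
    · obtain ⟨i, x⟩ := a
      obtain ⟨j, y⟩ := b
      simp only at hab hb
      subst hab
      rw [fold_append]
      have hl' : Red l' := by simpa using red_take hl l'.length
      by_cases hxy : x * y = 1
      · have : P (l' ++ [⟨i, x⟩]) * of y = P l' := by
          rw [P_append, P_cons, P_nil, mul_one, mul_assoc, ← map_mul, hxy, map_one, mul_one]
        rw [this, wl_P _ hl']
        exact S.Ml_mul_one x y hxy _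
      · have e : P (l' ++ [⟨i, x⟩]) * of y = P (l' ++ [⟨i, x * y⟩]) := by
          rw [P_append, P_cons, P_nil, mul_one, mul_assoc, ← map_mul, P_append, P_cons, P_nil,
            mul_one]
        have hr : Red (l' ++ [(⟨i, x * y⟩ : Σ i, G i)]) := by
          apply red_append hl' ⟨by simpa using hxy, List.isChain_singleton _⟩
          intro u hu v hv
          have := (List.isChain_append.1 hl.2).2.2 u hu ⟨i, x⟩ (by simp)
          simp only [List.head?_cons, Option.mem_some_iff] at hv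
          subst hv
          exact this
        rw [e, wl_P _ hr, fold_append]
        exact S.Ml_mul_le x y _
    · have hr : Red ((l' ++ [a]) ++ [b]) := by
        apply red_append hl ⟨by simpa using hb, List.isChain_singleton _⟩
        intro u hu v hv
        simp only [List.head?_cons, Option.mem_some_iff] at hv
        have hu' : u = a := by simpa using hu.symm
        subst hv
        rw [hu']
        exact hab
      have e : P (l' ++ [a]) * of b.2 = P ((l' ++ [a]) ++ [b]) := by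
        rw [P_append (l' ++ [a]), P_cons, P_nil, mul_one]
      rw [e, wl_P _ hr, fold_append (S := S) (l' ++ [a])]
      rfl

theorem list_le (l : List (Σ i, G i)) (hl : ∀ a ∈ l, a.2 ≠ 1) (w : CoprodI G) (c : ℤ) :
    S.fold l (S.fold (wl w) c) ≤ S.fold (wl (w * P l)) c := by
  induction l generalizing w with
  | nil => simp
  | cons b l ih =>
    rw [fold_cons]
    have h1 := S.letter_le (wl w) (red_wl w) b (hl b (by simp)) c
    rw [P_wl] at h1
    have h2 := S.fold_mono l h1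
    refine h2.trans ?_
    have h3 := ih (fun a ha => hl a (List.mem_cons_of_mem _ ha)) (w * of b.2)
    rw [mul_assoc, ← P_cons] at h3
    exact h3

/-- the rotation system -/
noncomputable def sys : MSys (F : LenFn (CoprodI G)) where
  m := S.m
  mpos := S.mpos
  M w c := S.fold (wl w) c
  mono w := S.fold_mono _
  per w c := S.fold_per _ c
  one c := by rw [wl_one]; rfl
  sup w v c := by
    have := S.list_le (wl v) (red_wl v).1 w c
    rwa [P_wl] at this
  exact' w v h c := by rw [wl_mul w v h, fold_append]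
  bd w c := S.fold_le _ c

end PSeq

end Pool.Agent.Q221.RStar.FP
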