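import Pool.Agent.Q221.RStar.Len

set_option autoImplicit false

namespace Pool.Agent.Q221.RStar

namespace LenFn

variable {G : Type*} [Group G] (F : LenFn G)

theorem c2_inv_mul_inv (s t : G) : F.c2 (s * t)⁻¹ t⁻¹ = 2 * F.len t - F.o2 s t := by
  have e1 : (s * t)⁻¹ = t⁻¹ * s⁻¹ := mul_inv_rev s t
  rw [e1, c2_mul_self, ← e1, F.inv, F.inv, F.inv, len_mul']; ring

theorem len_conj (s t : G) : F.len (s * t * s⁻¹)
    = 2 * F.len s + F.len t - F.o2 s t - F.c2 (s * t)⁻¹ s⁻¹ := by
  rw [len_mul, len_mul', F.inv]; ring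

theorem c2_inv_inv_ge (s t : G) : min (F.d2 t) (F.o2 s t) ≤ F.c2 t⁻¹ s⁻¹ := by
  have := F.hyp' t⁻¹ t s⁻¹
  rw [F.c2_comm t s⁻¹] at this
  exact this

theorem lemA (s t : G) (h : F.o2 s t ≤ F.d2 t) (ht : F.d2 t < F.len t) :
    F.len (s * t * s⁻¹) ≤ F.len t + 2 * F.len s - 2 * F.o2 s t := by
  have h1 := F.c2_inv_inv_ge s t
  rw [min_eq_right h] at h1
  have h2 := F.hyp' (s * t)⁻¹ t⁻¹ s⁻¹
  rw [c2_inv_mul_inv] at h2
  have h3 : F.o2 s t ≤ min (2 * F.len t - F.o2 s t) (F.c2 t⁻¹ s⁻¹) := le_min (by linarith) h1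
  have h4 := h3.trans h2
  rw [len_conj]; linarith

theorem lemB (s t : G) (h : F.d2 t < F.o2 s t) (hst : 2 * F.len s - F.d2 s ≤ F.d2 t)
    (hs : F.d2 s < F.len s) (ht : F.d2 t < F.len t) :
    F.len (s * t * s⁻¹) < F.len t := by
  have h1 := F.c2_inv_inv_ge s t
  rw [min_eq_left h.le] at h1
  have h2 := F.hyp' (s * t)⁻¹ t⁻¹ s⁻¹
  rw [c2_inv_mul_inv] at h2
  rw [len_conj]
  rcases min_le_iff.1 h2 with h3 | h3 <;> linarith

theorem o2_inv (s t : G) : F.o2 t⁻¹ s⁻¹ = F.o2 s t := by
  unfold o2; rw [inv_inv, c2_comm]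

theorem len_conj_inv (s t : G) : F.len (t⁻¹ * s⁻¹ * t⁻¹⁻¹) = F.len (t⁻¹ * s * t) := by
  rw [← F.inv (t⁻¹ * s * t)]; congr 1; group

/-- consecutive factors cancel less than half -/
def Good (s t : G) : Prop := F.o2 s t < F.len s ∧ F.o2 s t ≤ F.len t

/-- The pair lemma: in a bad pair a Hurwitz move improves the pair, unless the axes meet. -/
theorem pair (s t : G) (hs : F.d2 s < F.len s) (ht : F.d2 t < F.len t)
    (hnc : ¬ max (F.d2 s) (F.d2 t) <
      min (F.o2 s t) (min (2 * F.len s - F.d2 s) (2 * F.len t - F.d2 t)))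
    (hbad : ¬ F.Good s t) :
    (F.len (s * t * s⁻¹) < F.len t) ∨ (F.len (s * t * s⁻¹) ≤ F.len t ∧ F.len s < F.len t) ∨
      (F.len (t⁻¹ * s * t) < F.len s) := by
  unfold Good at hbad
  rw [not_and_or, not_lt, not_le] at hbad
  by_cases h1 : F.o2 s t ≤ F.d2 s
  · right; right
    have hb : F.len t < F.o2 s t := by
      rcases hbad with h | h
      · linarith
      · exact h
    have := F.lemA t⁻¹ s⁻¹ (by rw [o2_inv, d2_inv]; exact h1) (by rw [d2_inv, F.inv]; exact hs)
    rw [len_conj_inv, o2_inv, F.inv, F.inv] at this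
    linarith
  · by_cases h2 : F.o2 s t ≤ F.d2 t
    · right; left
      have hb : F.len s ≤ F.o2 s t := by
        rcases hbad with h | h
        · exact h
        · linarith
      have := F.lemA s t h2 ht
      constructor <;> linarith
    · push Not at h1 h2
      rw [not_lt, min_le_iff, min_le_iff] at hnc
      rcases hnc with h | h | h
      · exfalso
        rcases le_max_iff.1 h with h | h <;> linarith
      · rcases le_max_iff.1 h with h | h
        · linarith
        · left; exact F.lemB s t h2 h hs ht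
      · rcases le_max_iff.1 h with h | h
        · right; right
          have := F.lemB t⁻¹ s⁻¹ (by rw [o2_inv, d2_inv]; exact h1)
            (by rw [d2_inv, d2_inv, F.inv]; exact h) (by rw [d2_inv, F.inv]; exact ht)
            (by rw [d2_inv, F.inv]; exact hs)
          rw [len_conj_inv, F.inv] at this
          exact this
        · linarith

/-! ### growth of products of good sequences -/

/-- all consecutive pairs are good -/
def AllGood : List G → Prop
  | s :: t :: L => F.Good s t ∧ AllGood (t :: L)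
  | _ => True

theorem exists_bad : ∀ L : List G, ¬ F.AllGood L → ∃ L₁ s t L₂, L = L₁ ++ s :: t :: L₂ ∧ ¬ F.Good s t
  | [], h => (h (by simp [AllGood])).elim
  | [a], h => (h (by simp [AllGood])).elim
  | s :: t :: L, h => by
    by_cases hg : F.Good s t
    · have h' : ¬ F.AllGood (t :: L) := fun hh => h (by simp only [AllGood]; exact ⟨hg, hh⟩)
      obtain ⟨L₁, s', t', L₂, e, hb⟩ := exists_bad (t :: L) h'
      exact ⟨s :: L₁, s', t', L₂, by rw [e]; rfl, hb⟩
    · exact ⟨[], s, t, L, rfl, hg⟩

theorem growth : ∀ (L : List G) (s P : G), F.AllGood (s :: L) → F.len s ≤ F.c2 s⁻¹ P⁻¹ → 0 < F.len P →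
    0 < F.len (P * L.prod)
  | [], s, P, _, _, h => by simpa using h
  | t :: L, s, P, hg, hc, hP => by
    obtain ⟨⟨g1, g2⟩, g3⟩ : F.Good s t ∧ F.AllGood (t :: L) := by simpa only [AllGood] using hg
    have e : F.c2 P⁻¹ t = F.o2 s t := by
      have a1 := F.hyp' P⁻¹ s⁻¹ t
      have a2 := F.hyp' s⁻¹ P⁻¹ t
      rw [F.c2_comm P⁻¹ s⁻¹] at a1
      have a3 : F.c2 s⁻¹ t = F.o2 s t := rfl
      rw [a3] at a1 a2
      rcases min_le_iff.1 a2 with a4 | a4
      · linarith
      · rcases min_le_iff.1 a1 with a5 | a5 <;> linarith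
    have hl : F.len (P * t) = F.len P + F.len t - F.o2 s t := by rw [len_mul, e]
    have := growth L t (P * t) g3 (by
      have e1 : (P * t)⁻¹ = t⁻¹ * P⁻¹ := mul_inv_rev P t
      rw [F.c2_comm, e1, c2_mul_self, ← e1, F.inv, F.inv, F.inv, hl]
      linarith) (by rw [hl]; linarith)
    rwa [List.prod_cons, ← mul_assoc]

theorem prod_ne_one_of_allGood (s : G) (L : List G) (hg : F.AllGood (s :: L)) (hs : 0 < F.len s) :
    (s :: L).prod ≠ 1 := by
  intro h
  have := F.growth L s s hg (by unfold c2; rw [inv_inv, mul_inv_cancel, F.one, F.inv]; linarith) hs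
  rw [List.prod_cons] at h
  rw [h, F.one] at this
  exact lt_irrefl _ this

/-! ### inversions -/

/-- number of pairs `a < b` in the order of the list -/
def invn : List ℕ → ℕ
  | [] => 0
  | a :: L => (L.filter (fun b => decide (a < b))).length + invn L

theorem invn_swap (a b : ℕ) (hab : a < b) (L₂ : List ℕ) : ∀ L₁ : List ℕ,
    invn (L₁ ++ b :: a :: L₂) < invn (L₁ ++ a :: b :: L₂)
  | [] => by
    have h1 : ¬ b < a := by omega
    simp only [List.nil_append, invn, List.filter_cons, hab, h1, decide_true, decide_false,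
      if_true]
    simp
    omega
  | c :: L₁ => by
    have ih := invn_swap a b hab L₂ L₁
    simp only [List.cons_append, invn]
    have : ((L₁ ++ b :: a :: L₂).filter (fun x => decide (c < x))).length
        = ((L₁ ++ a :: b :: L₂).filter (fun x => decide (c < x))).length := by
      apply List.Perm.length_eq
      apply List.Perm.filter
      exact List.Perm.append_left L₁ (List.Perm.swap a b L₂)
    omega

/-- length as a natural number -/
def nl (x : G) : ℕ := (F.len x).toNat

theorem nl_lt {x y : G} (h : F.len x < F.len y) : F.nl x < F.nl y := by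
  have := F.len_nonneg x; have := F.len_nonneg y
  unfold nl; omega

theorem nl_le {x y : G} (h : F.len x ≤ F.len y) : F.nl x ≤ F.nl y := by
  have := F.len_nonneg x; have := F.len_nonneg y
  unfold nl; omega

/-- **No product of elements of `S` is trivial** if `S` is a conjugation invariant set of hyperbolic
elements that is closed under products of elements whose axes meet. -/
theorem prod_ne_one (S : Set G) (hconj : ∀ s ∈ S, ∀ x, x * s * x⁻¹ ∈ S)
    (hhyp : ∀ s ∈ S, F.d2 s < F.len s)
    (hmul : ∀ s ∈ S, ∀ t ∈ S, max (F.d2 s) (F.d2 t) <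
      min (F.o2 s t) (min (2 * F.len s - F.d2 s) (2 * F.len t - F.d2 t)) → s * t ∈ S) :
    ∀ L : List G, L ≠ [] → (∀ s ∈ L, s ∈ S) → L.prod ≠ 1 := by
  intro L
  induction' hn : L.length using Nat.strong_induction_on with n ihn generalizing L
  induction' ha : (L.map F.nl).sum using Nat.strong_induction_on with a iha generalizing L
  induction' hb : invn (L.map F.nl) using Nat.strong_induction_on with b ihb generalizing L
  intro hne hS hprod
  by_cases hg : F.AllGood L
  · cases L with
    | nil => exact hne rfl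
    | cons s L =>
      have hs := hhyp s (hS s (by simp))
      exact F.prod_ne_one_of_allGood s L hg (by have := F.d2_nonneg s; linarith) hprod
  · obtain ⟨L₁, s, t, L₂, e, hbad⟩ := F.exists_bad L hg
    have hs := hS s (by rw [e]; simp)
    have ht := hS t (by rw [e]; simp)
    have hS1 : ∀ x ∈ L₁, x ∈ S := fun x hx => hS x (by rw [e]; simp [hx])
    have hS2 : ∀ x ∈ L₂, x ∈ S := fun x hx => hS x (by rw [e]; simp [hx])
    by_cases hc : max (F.d2 s) (F.d2 t) <
      min (F.o2 s t) (min (2 * F.len s - F.d2 s) (2 * F.len t - F.d2 t))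
    · have hst := hmul s hs t ht hc
      refine ihn (L₁ ++ (s * t) :: L₂).length ?_ (L₁ ++ (s * t) :: L₂) rfl (by simp) ?_ ?_
      · rw [← hn, e]; simp
      · intro x hx
        rcases List.mem_append.1 hx with hx | hx
        · exact hS1 x hx
        · rcases List.mem_cons.1 hx with hx | hx
          · rw [hx]; exact hst
          · exact hS2 x hx
      · rw [← hprod, e]; simp [mul_assoc]
    · have h1 : s * t * s⁻¹ ∈ S := hconj t ht s
      have h2 : t⁻¹ * s * t ∈ S := by
        have := hconj s hs t⁻¹; rwa [inv_inv] at this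
      have hmemA : ∀ x ∈ L₁ ++ (s * t * s⁻¹) :: s :: L₂, x ∈ S := by
        intro x hx
        rcases List.mem_append.1 hx with hx | hx
        · exact hS1 x hx
        · rcases List.mem_cons.1 hx with hx | hx
          · rw [hx]; exact h1
          · rcases List.mem_cons.1 hx with hx | hx
            · rw [hx]; exact hs
            · exact hS2 x hx
      have hmemB : ∀ x ∈ L₁ ++ t :: (t⁻¹ * s * t) :: L₂, x ∈ S := by
        intro x hx
        rcases List.mem_append.1 hx with hx | hx
        · exact hS1 x hx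
        · rcases List.mem_cons.1 hx with hx | hx
          · rw [hx]; exact ht
          · rcases List.mem_cons.1 hx with hx | hx
            · rw [hx]; exact h2
            · exact hS2 x hx
      have hpA : (L₁ ++ (s * t * s⁻¹) :: s :: L₂).prod = 1 := by
        rw [← hprod, e]; simp [mul_assoc]
      have hpB : (L₁ ++ t :: (t⁻¹ * s * t) :: L₂).prod = 1 := by
        rw [← hprod, e]; simp [mul_assoc]
      have hlA : (L₁ ++ (s * t * s⁻¹) :: s :: L₂).length = n := by rw [← hn, e]; simp
      have hlB : (L₁ ++ t :: (t⁻¹ * s * t) :: L₂).length = n := by rw [← hn, e]; simp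
      have hsum : ((L₁ ++ s :: t :: L₂).map F.nl).sum = a := by rw [← ha, e]
      have key := F.pair s t (hhyp s hs) (hhyp t ht) hc hbad
      rcases key with k | ⟨k, k2⟩ | k
      · have k' := F.nl_lt k
        refine iha ((L₁ ++ (s * t * s⁻¹) :: s :: L₂).map F.nl).sum ?_ _ hlA rfl (by simp) hmemA hpA
        rw [← hsum]; simp; omega
      · rcases k.lt_or_eq with k | k
        · have k' := F.nl_lt k
          refine iha ((L₁ ++ (s * t * s⁻¹) :: s :: L₂).map F.nl).sum ?_ _ hlA rfl (by simp) hmemA hpA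
          rw [← hsum]; simp; omega
        · have k' : F.nl (s * t * s⁻¹) = F.nl t := by unfold nl; rw [k]
          refine ihb (invn ((L₁ ++ (s * t * s⁻¹) :: s :: L₂).map F.nl)) ?_ _ hlA ?_ rfl (by simp)
            hmemA hpA
          · rw [← hb, e]
            simp only [List.map_append, List.map_cons, k']
            exact invn_swap _ _ (F.nl_lt k2) _ _
          · rw [← hsum]; simp only [List.map_append, List.map_cons, k', List.sum_append,
              List.sum_cons]; omega
      · have k' := F.nl_lt k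
        refine iha ((L₁ ++ t :: (t⁻¹ * s * t) :: L₂).map F.nl).sum ?_ _ hlB rfl (by simp) hmemB hpB
        rw [← hsum]; simp; omega

/-! ### prefixes on the axis are cyclically reduced -/

theorem conj_prefix (t h : G) (ht : F.d2 t < F.len t)
    (hp : F.len (h⁻¹ * t) = F.len t - F.len h) (h1 : F.d2 t ≤ 2 * F.len h)
    (h2 : 2 * F.len h ≤ 2 * F.len t - F.d2 t) :
    F.len (h⁻¹ * t * h) = F.len t - F.d2 t ∧ F.d2 (h⁻¹ * t * h) = 0 := by
  set a := h⁻¹ * t with ha
  have eta : t = h * a := by rw [ha]; group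
  have c1 : F.c2 t⁻¹ a⁻¹ = 2 * F.len a := by
    have e1 : t⁻¹ = a⁻¹ * h⁻¹ := by rw [eta, mul_inv_rev]
    rw [e1, c2_mul_self, ← e1, F.inv, F.inv, F.inv, hp]; ring
  have c3 : F.c2 t h = 2 * F.len h := by
    have : F.c2 (h * a) h = F.len (h * a) + F.len h - F.len a := F.c2_mul_self h a
    rw [← eta, hp] at this; rw [this]; ring
  have c4 : F.c2 a⁻¹ h = F.d2 t := by
    have a1 := F.hyp' a⁻¹ t⁻¹ t
    have a2 := F.hyp' a⁻¹ t h
    rw [F.c2_comm a⁻¹ t⁻¹, c1] at a1
    rw [c3] at a2
    have hd : F.c2 t⁻¹ t = F.d2 t := rfl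
    rw [hd] at a1
    have lo : F.d2 t ≤ F.c2 a⁻¹ h := by
      have : F.d2 t ≤ F.c2 a⁻¹ t := by
        refine le_trans (le_min ?_ le_rfl) a1
        rw [hp]; linarith
      exact le_trans (le_min this h1) a2
    have hi : F.c2 a⁻¹ h ≤ F.d2 t := by
      by_contra hcon
      push Not at hcon
      have u1 := F.c2_le_left a⁻¹ h
      have u2 := F.c2_le_right a⁻¹ h
      rw [F.inv] at u1
      have b1 := F.hyp' t⁻¹ a⁻¹ h
      have b2 := F.hyp' t⁻¹ h t
      rw [c1] at b1
      rw [F.c2_comm h t, c3] at b2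
      have b3 : F.d2 t < F.c2 t⁻¹ h := lt_of_lt_of_le (lt_min (lt_of_lt_of_le hcon u1) hcon) b1
      have b4 := lt_of_lt_of_le (lt_min b3 (lt_of_lt_of_le hcon u2)) b2
      rw [hd] at b4
      exact lt_irrefl _ b4
    exact le_antisymm hi lo
  have l1 : F.len (a * h) = F.len t - F.d2 t := by
    rw [len_mul, c4, hp]; ring
  refine ⟨l1, ?_⟩
  by_contra hne
  have hpos : 1 ≤ F.d2 (a * h) := by
    have := F.d2_nonneg (a * h)
    rcases this.lt_or_eq with h | h
    · omega
    · exact (hne h.symm).elim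
  -- lower bound of powers
  have low : ∀ k : ℕ, (k + 1) * (F.len t - F.d2 t) + F.d2 t - 2 * F.len h ≤ F.len ((a * h) ^ (k + 1)) := by
    intro k
    have e1 : t ^ (k + 1) = h * (a * h) ^ (k + 1) * h⁻¹ := by
      rw [← conj_pow]; congr 1; rw [eta]; group
    have e2 := (F.len_pow_of_hyp t ht k).1
    have e3 : F.len (t ^ (k + 1)) ≤ F.len h + F.len ((a * h) ^ (k + 1)) + F.len h := by
      rw [e1]
      refine le_trans (F.len_mul_le _ _) ?_
      rw [F.inv]
      have := F.len_mul_le h ((a * h) ^ (k + 1))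
      linarith
    rw [e2] at e3; linarith
  have up : ∀ k : ℕ, F.len ((a * h) ^ (2 * k)) ≤ k * (2 * (F.len t - F.d2 t) - 1) := by
    intro k
    rw [pow_mul]
    refine le_trans (F.len_pow_le _ k) ?_
    have : F.len ((a * h) ^ 2) ≤ 2 * (F.len t - F.d2 t) - 1 := by
      rw [sq, len_sq, l1]; linarith
    exact mul_le_mul_of_nonneg_left this (by positivity)
  have k0 := F.len_nonneg h
  have k1 := F.d2_nonneg t
  obtain ⟨k, hk⟩ : ∃ k : ℕ, 2 * F.len h < k := ⟨(2 * F.len h + 1).toNat, by omega⟩
  have kk := low (2 * k + 1)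
  have kk2 := up (k + 1)
  have : 2 * k + 1 + 1 = 2 * (k + 1) := by ring
  rw [this] at kk
  have := kk.trans kk2
  push_cast at this
  nlinarith

/-- if `d2 u = 0` then the powers of `u` are reduced as written -/
theorem len_pow_of_d2_zero (u : G) (h : F.d2 u = 0) (k : ℕ) :
    F.len (u ^ (k + 1)) = F.len (u ^ k) + F.len u := by
  by_cases hu : F.len u = 0
  · rw [hu, add_zero]
    have h1 := F.len_pow_le u k
    have h2 := F.len_pow_le u (k + 1)
    rw [hu, mul_zero] at h1 h2
    have := F.len_nonneg (u ^ k); have := F.len_nonneg (u ^ (k + 1))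
    omega
  · have hp : F.d2 u < F.len u := by
      rw [h]; exact lt_of_le_of_ne (F.len_nonneg u) (Ne.symm hu)
    cases k with
    | zero => simp [F.one]
    | succ k =>
      have a := (F.len_pow_of_hyp u hp k).1
      have b := (F.len_pow_of_hyp u hp (k + 1)).1
      rw [a, b, h]; push_cast; ring

end LenFn

end Pool.Agent.Q221.RStar
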