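import Pool.Agent.Q221.RStar.MSys

/-!
The syllable length of a free product is a Lyndon length function.
-/

set_option autoImplicit false
set_option linter.unusedSectionVars false

namespace Pool.Agent.Q221.RStar.FP

open Monoid Monoid.CoprodI

variable {ι : Type*} {G : ι → Type*} [∀ i, Group (G i)]

/-- reduced lists of letters -/
def Red (l : List (Σ i, G i)) : Prop := (∀ a ∈ l, a.2 ≠ 1) ∧ l.IsChain (fun a b => a.1 ≠ b.1)

/-- the product of a list of letters -/
def P (l : List (Σ i, G i)) : CoprodI G := (l.map fun a => of a.2).prod

@[simp] theorem P_nil : P ([] : List (Σ i, G i)) = 1 := rfl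
@[simp] theorem P_cons (a : Σ i, G i) (l : List (Σ i, G i)) : P (a :: l) = of a.2 * P l := by
  simp [P]
@[simp] theorem P_append (l l' : List (Σ i, G i)) : P (l ++ l') = P l * P l' := by
  simp [P]

open Classical in
/-- the reduced list of an element -/
noncomputable def wl (x : CoprodI G) : List (Σ i, G i) := (Word.equiv x).toList

theorem red_wl (x : CoprodI G) : Red (wl x) := by
  classical
  exact ⟨(Word.equiv x).ne_one, (Word.equiv x).chain_ne⟩

theorem P_wl (x : CoprodI G) : P (wl x) = x := by
  classical
  exact Word.equiv.left_inv x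

theorem wl_P (l : List (Σ i, G i)) (h : Red l) : wl (P l) = l := by
  classical
  have := Word.equiv.right_inv (⟨l, h.1, h.2⟩ : Word G)
  have h2 := congrArg Word.toList this
  exact h2

theorem red_nil : Red ([] : List (Σ i, G i)) := ⟨by simp, List.isChain_nil⟩

theorem wl_one : wl (1 : CoprodI G) = [] := by
  have := wl_P ([] : List (Σ i, G i)) red_nil
  simpa using this

/-- inverse letter -/
def il (a : Σ i, G i) : Σ i, G i := ⟨a.1, a.2⁻¹⟩

/-- inverse word -/
def iw (l : List (Σ i, G i)) : List (Σ i, G i) := (l.map il).reverse

theorem P_iw (l : List (Σ i, G i)) : P (iw l) = (P l)⁻¹ := by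
  induction l with
  | nil => simp [iw]
  | cons a l ih =>
    have : iw (a :: l) = iw l ++ [il a] := by simp [iw]
    rw [this, P_append, ih, P_cons, P_cons, P_nil, mul_one, mul_inv_rev, ← map_inv]
    rfl

theorem red_iw (l : List (Σ i, G i)) (h : Red l) : Red (iw l) := by
  constructor
  · intro a ha
    rw [iw, List.mem_reverse, List.mem_map] at ha
    obtain ⟨b, hb, rfl⟩ := ha
    exact fun he => h.1 b hb (inv_eq_one.1 he)
  · rw [iw, List.isChain_reverse, List.isChain_map]
    exact h.2.imp (fun a b hab => by simpa [il] using fun e => hab e.symm)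

theorem red_tail {a : Σ i, G i} {l : List (Σ i, G i)} (h : Red (a :: l)) : Red l :=
  ⟨fun b hb => h.1 b (List.mem_cons_of_mem _ hb), h.2.tail⟩

theorem red_take {l : List (Σ i, G i)} (h : Red l) (n : ℕ) : Red (l.take n) :=
  ⟨fun b hb => h.1 b (List.mem_of_mem_take hb), h.2.take n⟩

theorem red_drop {l : List (Σ i, G i)} (h : Red l) (n : ℕ) : Red (l.drop n) :=
  ⟨fun b hb => h.1 b (List.mem_of_mem_drop hb), h.2.drop n⟩

theorem red_append {l l' : List (Σ i, G i)} (h : Red l) (h' : Red l')
    (hc : ∀ x ∈ l.getLast?, ∀ y ∈ l'.head?, x.1 ≠ y.1) : Red (l ++ l') :=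
  ⟨fun b hb => by
      rcases List.mem_append.1 hb with hb | hb
      · exact h.1 b hb
      · exact h'.1 b hb, List.isChain_append.2 ⟨h.2, h'.2, hc⟩⟩

open Classical in
/-- twice the length of the common part of two reduced lists -/
noncomputable def cp : List (Σ i, G i) → List (Σ i, G i) → ℤ
  | a :: l, b :: l' => if a = b then 2 + cp l l' else if a.1 = b.1 then 1 else 0
  | _, _ => 0

theorem cp_nil_left (l : List (Σ i, G i)) : cp [] l = 0 := by simp [cp]
theorem cp_nil_right (l : List (Σ i, G i)) : cp l [] = 0 := by cases l <;> simp [cp]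

theorem cp_nonneg : ∀ l l' : List (Σ i, G i), 0 ≤ cp l l'
  | [], l' => by simp [cp]
  | a :: l, [] => by simp [cp]
  | a :: l, b :: l' => by
    have := cp_nonneg l l'
    unfold cp
    split_ifs <;> linarith

theorem cp_ultra : ∀ x y z : List (Σ i, G i), min (cp x y) (cp y z) ≤ cp x z
  | [], y, z => by rw [cp_nil_left, cp_nil_left]; exact min_le_left _ _
  | x, y, [] => by rw [cp_nil_right, cp_nil_right]; exact min_le_right _ _
  | x :: xs, [], z :: zs => by
    rw [cp_nil_left]; exact (min_le_right _ _).trans (cp_nonneg _ _)
  | x :: xs, y :: ys, z :: zs => by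
    have ih := cp_ultra xs ys zs
    have h1 := cp_nonneg xs zs
    by_cases hxy : x = y
    · subst hxy
      by_cases hyz : x = z
      · subst hyz
        simp only [cp, if_true]
        rcases min_le_iff.1 ih with h | h
        · exact (min_le_left _ _).trans (by linarith)
        · exact (min_le_right _ _).trans (by linarith)
      · have : cp (x :: xs) (z :: zs) = cp (x :: ys) (z :: zs) := by
          simp only [cp, hyz, if_false]
        rw [this]; exact min_le_right _ _
    · by_cases hyz : y = z
      · subst hyz
        have : cp (x :: xs) (y :: zs) = cp (x :: xs) (y :: ys) := by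
          simp only [cp, hxy, if_false]
        rw [this]; exact min_le_left _ _
      · by_cases h2 : x.1 = y.1
        · by_cases h3 : y.1 = z.1
          · have e1 : cp (x :: xs) (y :: ys) = 1 := by simp only [cp, hxy, if_false, h2, if_true]
            rw [e1]
            refine (min_le_left _ _).trans ?_
            unfold cp
            by_cases h4 : x = z
            · simp only [h4, if_true]; linarith
            · simp only [h4, if_false, h2.trans h3, if_true]; exact le_rfl
          · have e1 : cp (y :: ys) (z :: zs) = 0 := by simp only [cp, hyz, if_false, h3]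
            rw [e1]; exact (min_le_right _ _).trans (cp_nonneg _ _)
        · have e1 : cp (x :: xs) (y :: ys) = 0 := by simp only [cp, hxy, if_false, h2]
          rw [e1]; exact (min_le_left _ _).trans (cp_nonneg _ _)

theorem cp_prefix : ∀ (l l' : List (Σ i, G i)) (j : ℕ), 2 * (j : ℤ) ≤ cp l l' →
    l.take j = l'.take j ∧ j ≤ l.length ∧ j ≤ l'.length
  | l, l', 0, _ => by simp
  | [], l', j + 1, h => by rw [cp_nil_left] at h; push_cast at h; omega
  | a :: l, [], j + 1, h => by rw [cp_nil_right] at h; push_cast at h; omega
  | a :: l, b :: l', j + 1, h => by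
    unfold cp at h
    push_cast at h
    split_ifs at h with h1 h2
    · obtain ⟨h3, h4, h5⟩ := cp_prefix l l' j (by omega)
      subst h1
      refine ⟨by simp [h3], by simpa using h4, by simpa using h5⟩
    · omega
    · omega

theorem length_inv_mul : ∀ (l l' : List (Σ i, G i)), Red l → Red l' →
    ((wl ((P l)⁻¹ * P l')).length : ℤ) = l.length + l'.length - cp l l'
  | [], l', _, h' => by
    rw [P_nil, inv_one, one_mul, wl_P l' h', cp_nil_left]; simp
  | a :: l, [], h, _ => by
    rw [P_nil, mul_one, ← P_iw, wl_P _ (red_iw _ h), cp_nil_right]; simp [iw]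
  | a :: l, b :: l', h, h' => by
    by_cases hab : a = b
    · subst hab
      have ih := length_inv_mul l l' (red_tail h) (red_tail h')
      have e : (P (a :: l))⁻¹ * P (a :: l') = (P l)⁻¹ * P l' := by
        rw [P_cons, P_cons]; group
      rw [e, ih]
      simp only [cp, if_true, List.length_cons]
      push_cast; ring
    · by_cases h1 : a.1 = b.1
      · obtain ⟨i, x⟩ := a
        obtain ⟨j, y⟩ := b
        simp only at h1
        subst h1
        have hxy : x ≠ y := fun e => hab (by rw [e])
        have e : (P (⟨i, x⟩ :: l))⁻¹ * P (⟨i, y⟩ :: l') = P (iw l ++ (⟨i, x⁻¹ * y⟩ :: l')) := by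
          rw [P_append, P_iw, P_cons, P_cons, P_cons, map_mul, map_inv]; group
        have hr : Red (iw l ++ (⟨i, x⁻¹ * y⟩ :: l')) := by
          apply red_append (red_iw l (red_tail h))
          · refine ⟨?_, ?_⟩
            · intro c hc
              rcases List.mem_cons.1 hc with hc | hc
              · rw [hc]; intro he; apply hxy; exact (inv_mul_eq_one.1 he)
              · exact h'.1 c (List.mem_cons_of_mem _ hc)
            · exact List.isChain_cons.2 ⟨(List.isChain_cons.1 h'.2).1, h'.2.tail⟩
          · intro c hc d hd
            rw [List.head?_cons, Option.mem_some_iff] at hd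
            subst hd
            rw [iw, List.getLast?_reverse, List.head?_map] at hc
            cases l with
            | nil => simp at hc
            | cons c' l =>
              simp only [List.head?_cons, Option.map_some, Option.mem_some_iff] at hc
              subst hc
              have := (List.isChain_cons.1 h.2).1 c' (by simp)
              exact fun e => this e.symm
        rw [e, wl_P _ hr]
        simp only [cp, hab, if_false, if_true, List.length_append, List.length_cons, iw,
          List.length_reverse, List.length_map]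
        push_cast; ring
      · have e : (P (a :: l))⁻¹ * P (b :: l') = P (iw (a :: l) ++ (b :: l')) := by
          rw [P_append, P_iw]
        have hr : Red (iw (a :: l) ++ (b :: l')) := by
          apply red_append (red_iw _ h) h'
          intro c hc d hd
          rw [List.head?_cons, Option.mem_some_iff] at hd
          subst hd
          rw [iw, List.getLast?_reverse, List.head?_map] at hc
          simp only [List.head?_cons, Option.map_some, Option.mem_some_iff] at hc
          subst hc
          exact h1
        rw [e, wl_P _ hr]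
        simp only [cp, hab, if_false, h1, List.length_append, List.length_cons, iw,
          List.length_reverse, List.length_map]
        push_cast; ring

/-- The syllable length. -/
noncomputable def F : LenFn (CoprodI G) where
  len x := (wl x).length
  one := by rw [wl_one]; simp
  inv x := by
    conv_lhs => rw [← P_wl x, ← P_iw, wl_P _ (red_iw _ (red_wl x))]
    simp [iw]
  hyp x y z := by
    have h1 := length_inv_mul (wl x) (wl y) (red_wl x) (red_wl y)
    have h2 := length_inv_mul (wl y) (wl z) (red_wl y) (red_wl z)
    have h3 := length_inv_mul (wl x) (wl z) (red_wl x) (red_wl z)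
    rw [P_wl, P_wl] at h1 h2 h3
    rw [h1, h2, h3]
    have := cp_ultra (wl x) (wl y) (wl z)
    have e1 : ∀ a b c : ℤ, a + b - (a + b - c) = c := fun a b c => by ring
    rw [e1, e1, e1]
    exact this

theorem len_def (x : CoprodI G) : (F : LenFn (CoprodI G)).len x = (wl x).length := rfl

theorem c2_eq (x y : CoprodI G) : (F : LenFn (CoprodI G)).c2 x y = cp (wl x) (wl y) := by
  have h1 := length_inv_mul (wl x) (wl y) (red_wl x) (red_wl y)
  rw [P_wl, P_wl] at h1
  rw [LenFn.c2_def, len_def, len_def, len_def, h1]; ring

theorem pre (x y : CoprodI G) (j : ℕ) (h : 2 * (j : ℤ) ≤ (F : LenFn (CoprodI G)).c2 x y) :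
    ∃ h : CoprodI G, F.len h = j ∧ F.len (h⁻¹ * x) = F.len x - j ∧
      F.len (h⁻¹ * y) = F.len y - j := by
  rw [c2_eq] at h
  obtain ⟨h1, h2, h3⟩ := cp_prefix _ _ _ h
  refine ⟨P ((wl x).take j), ?_, ?_, ?_⟩
  · rw [len_def, wl_P _ (red_take (red_wl x) j), List.length_take, min_eq_left h2]
  · have e : (P ((wl x).take j))⁻¹ * x = P ((wl x).drop j) := by
      rw [inv_mul_eq_iff_eq_mul, ← P_append, List.take_append_drop, P_wl]
    rw [e, len_def, wl_P _ (red_drop (red_wl x) j), List.length_drop, len_def]
    omega
  · have e : (P ((wl x).take j))⁻¹ * y = P ((wl y).drop j) := by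
      rw [h1, inv_mul_eq_iff_eq_mul, ← P_append, List.take_append_drop, P_wl]
    rw [e, len_def, wl_P _ (red_drop (red_wl y) j), List.length_drop, len_def]
    omega

/-- if lengths add up then the reduced lists are concatenated -/
theorem wl_mul (w v : CoprodI G) (h : (F : LenFn (CoprodI G)).len (w * v) = F.len w + F.len v) :
    wl (w * v) = wl w ++ wl v := by
  have hr : Red (wl w ++ wl v) := by
    apply red_append (red_wl w) (red_wl v)
    intro a ha b hb hab
    have h1 := (F : LenFn (CoprodI G)).len_mul w v
    have h2 : (F : LenFn (CoprodI G)).c2 w⁻¹ v = 0 := by rw [h] at h1; linarith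
    rw [c2_eq] at h2
    have e : wl w⁻¹ = iw (wl w) := by
      conv_lhs => rw [← P_wl w, ← P_iw, wl_P _ (red_iw _ (red_wl w))]
    rw [e] at h2
    have h3 : (iw (wl w)).head? = some (il a) := by
      rw [iw, List.head?_reverse, List.getLast?_map]
      rw [Option.mem_def] at ha
      rw [ha]; rfl
    obtain ⟨t, ht⟩ := List.head?_eq_some_iff.1 h3
    rw [Option.mem_def] at hb
    obtain ⟨t', ht'⟩ := List.head?_eq_some_iff.1 hb
    rw [ht, ht'] at h2
    unfold cp at h2
    have hn := cp_nonneg t t'
    have hab' : (il a).1 = b.1 := hab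
    rw [if_pos hab'] at h2
    split_ifs at h2 <;> linarith
  conv_lhs => rw [← P_wl w, ← P_wl v, ← P_append, wl_P _ hr]

end Pool.Agent.Q221.RStar.FP
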